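import Mathlib
import Pool.Agent.GRL24.Group

/-! # Small primes generate the group of a partial `G`-isomorphism -/

set_option autoImplicit false

namespace Pool.Agent.Results.MP_886560_nt.SmallPrimesGenerate

open GRL24

theorem finite_of_iso {n : ℕ} {G : Type} [AddCommGroup G] {h : ℕ → G}
    (hh : IsPartialIso n G h) : Finite G := by
  rw [← Set.finite_univ_iff, ← hh.1.image_eq]
  exact (Set.finite_Icc 1 n).image h

theorem card_of_iso {n : ℕ} {G : Type} [AddCommGroup G] {h : ℕ → G}
    (hh : IsPartialIso n G h) : Nat.card G = n := by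
  have h1 : (h '' (Set.Icc 1 n)).ncard = (Set.Icc 1 n).ncard :=
    Set.ncard_image_of_injOn hh.1.injOn
  rw [hh.1.image_eq, Set.ncard_univ] at h1
  rw [h1, ← Finset.coe_Icc, Set.ncard_coe_finset, Nat.card_Icc]
  omega

/-- Let `h` be a partial `G`-isomorphism on `{1, ..., n}`, let `y ≥ 1` and let `H` be a
subgroup of `G` containing `h p` for every prime `p ≤ y` (with `p ≤ n`).  Then
`(y!) ^ (n / y) * (y + 1) ^ (n - |H|) ≤ n!`, and `H` is all of `G` as soon as
`n! < (y!) ^ (n / y) * (y + 1) ^ (n - n / 2)`. -/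
theorem result (n y : ℕ) (hy : 1 ≤ y) (G : Type) [AddCommGroup G] (h : ℕ → G)
    (hh : IsPartialIso n G h) (H : AddSubgroup G)
    (hall : ∀ p, p.Prime → p ≤ y → p ≤ n → h p ∈ H) :
    y.factorial ^ (n / y) * (y + 1) ^ (n - Nat.card H) ≤ n.factorial ∧
      (n.factorial < y.factorial ^ (n / y) * (y + 1) ^ (n - n / 2) → H = ⊤) := by
  haveI := finite_of_iso hh
  have h1 : y.factorial ^ (n / y) * (y + 1) ^ (n - Nat.card H) ≤ n.factorial :=
    (Nat.mul_le_mul_left _ (Nat.pow_le_pow_right (by omega) (card_big_ge hh H hall))).trans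
      (main_ineq y n hy)
  refine ⟨h1, fun hlt => ?_⟩
  by_contra hne
  have hcard := card_of_iso hh
  have hdvd : Nat.card H ∣ n := by
    have := AddSubgroup.card_addSubgroup_dvd_card H
    rwa [hcard] at this
  have hlt2 : Nat.card H < n := by
    rcases lt_or_ge (Nat.card H) n with h3 | h3
    · exact h3
    · exfalso
      apply hne
      apply AddSubgroup.eq_top_of_le_card
      rw [hcard]
      exact h3
  have hhalf : Nat.card H ≤ n / 2 := by
    obtain ⟨k, hk⟩ := hdvd
    have hk2 : 2 ≤ k := by
      rcases Nat.lt_or_ge k 2 with h3 | h3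
      · exfalso
        interval_cases k
        · omega
        · omega
      · exact h3
    rw [Nat.le_div_iff_mul_le (by norm_num)]
    calc Nat.card H * 2 ≤ Nat.card H * k := Nat.mul_le_mul_left _ hk2
      _ = n := hk.symm
  have h4 : y.factorial ^ (n / y) * (y + 1) ^ (n - n / 2)
      ≤ y.factorial ^ (n / y) * (y + 1) ^ (n - Nat.card H) :=
    Nat.mul_le_mul_left _ (Nat.pow_le_pow_right (by omega) (by omega))
  omega

end Pool.Agent.Results.MP_886560_nt.SmallPrimesGenerate
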